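import Pool.Agent.X222.RS.Tuples

/-! # Random subsets of an arbitrary finite set have no subsets of small doubling -/

set_option autoImplicit false

namespace Pool.Agent.X222.RS

open Finset
open scoped Pointwise

section supersets

variable {α : Type*} [DecidableEq α]

theorem supersets (X A : Finset α) (k : ℕ) :
    ((X.powersetCard k).filter fun S => A ⊆ S).card ≤ (X.card - A.card).choose (k - A.card) := by
  rcases ((X.powersetCard k).filter fun S => A ⊆ S).eq_empty_or_nonempty with he | ⟨S0, hS0⟩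
  · rw [he]
    simp
  have hAX : A ⊆ X := by
    obtain ⟨h1, h2⟩ := mem_filter.1 hS0
    exact h2.trans (mem_powersetCard.1 h1).1
  have h1 : ((X \ A).powersetCard (k - A.card)).card = (X.card - A.card).choose (k - A.card) := by
    rw [card_powersetCard, card_sdiff_of_subset hAX]
  rw [← h1]
  refine card_le_card_of_injOn (fun S => S \ A) ?_ ?_
  · intro S hS
    have hS := mem_filter.1 (mem_coe.1 hS)
    rw [mem_powersetCard] at hS
    rw [mem_coe, mem_powersetCard]
    refine ⟨sdiff_subset_sdiff hS.1.1 (Subset.refl A), ?_⟩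
    rw [card_sdiff_of_subset hS.2, hS.1.2]
  · intro S hS S' hS' heq
    have hS := mem_filter.1 (mem_coe.1 hS)
    have hS' := mem_filter.1 (mem_coe.1 hS')
    have h2 : S \ A = S' \ A := heq
    rw [← sdiff_union_of_subset hS.2, ← sdiff_union_of_subset hS'.2, h2]

theorem supersets_real (X A : Finset α) (hX : X.Nonempty) (k : ℕ) (hk : k ≤ X.card) :
    ((((X.powersetCard k).filter fun S => A ⊆ S).card : ℕ) : ℝ) ≤
      (X.card.choose k : ℝ) * ((k : ℝ) / X.card) ^ A.card := by
  have hn0 : (0 : ℝ) < X.card := by exact_mod_cast hX.card_pos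
  rcases lt_or_ge k A.card with h | h
  · have e : ((X.powersetCard k).filter fun S => A ⊆ S) = ∅ := by
      refine filter_false_of_mem fun S hS hA => ?_
      have h1 := card_le_card hA
      rw [(mem_powersetCard.1 hS).2] at h1
      omega
    rw [e]
    simp only [card_empty, Nat.cast_zero]
    positivity
  · have h1 := supersets X A k
    have h2 := Pool.Agent.X222.PR.choose_ratio X.card k hk A.card h
    have h3 : (((X.card - A.card).choose (k - A.card) : ℕ) : ℝ) ≤
        (X.card.choose k : ℝ) * (k : ℝ) ^ A.card / (X.card : ℝ) ^ A.card := by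
      rw [le_div_iff₀ (by positivity)]
      exact_mod_cast h2
    refine (Nat.cast_le.2 h1).trans (h3.trans (le_of_eq ?_))
    rw [div_pow]
    ring

end supersets

variable {Γ : Type*} [AddCommGroup Γ] [DecidableEq Γ]

open Classical in
theorem small_real (X : Finset Γ) (hX : X.Nonempty) (L m : ℕ) (hL : 1 ≤ L) (hm : 1 ≤ m) :
    (((small X L m).card : ℕ) : ℝ) ≤
      (12 * L / m : ℝ) ^ m * (X.card : ℝ) ^ (2 * Real.sqrt L + 2) := by
  have hn1 : (1 : ℝ) ≤ X.card := by exact_mod_cast hX.card_pos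
  have hm0 : (0 : ℝ) < m := by exact_mod_cast hm
  obtain ⟨b, hb⟩ : ∃ b : ℕ, b = ⌈2 * Real.sqrt L⌉₊ := ⟨_, rfl⟩
  have hb1 : 2 * Real.sqrt L ≤ b := by rw [hb]; exact Nat.le_ceil _
  have hb2 : (b : ℝ) < 2 * Real.sqrt L + 1 := by rw [hb]; exact Nat.ceil_lt_add_one (by positivity)
  have hs : Real.sqrt L ^ 2 = L := Real.sq_sqrt (Nat.cast_nonneg L)
  have hs1 : 1 ≤ Real.sqrt L := Real.one_le_sqrt.2 (by exact_mod_cast hL)
  have hb3 : 4 * L < (b + 1) * b := by
    have h1 : (4 * L : ℝ) < (b + 1) * b := by nlinarith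
    exact_mod_cast h1
  have h1 := small_card X hX L m b hL hb3
  have h2 : (m.factorial : ℝ) * ((small X L m).card : ℝ) ≤
      2 ^ m * (X.card : ℝ) ^ (b + 1) * (2 * L) ^ m := by exact_mod_cast h1
  have hf : (0 : ℝ) < (m.factorial : ℝ) := by exact_mod_cast m.factorial_pos
  have h3 : ((small X L m).card : ℝ) ≤
      ((4 * L : ℝ) ^ m / (m.factorial : ℝ)) * (X.card : ℝ) ^ (b + 1) := by
    rw [div_mul_eq_mul_div, le_div_iff₀ hf, mul_comm]
    refine h2.trans (le_of_eq ?_)
    rw [show (4 * L : ℝ) = 2 * (2 * L) by ring, mul_pow 2 (2 * (L : ℝ))]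
    ring
  refine h3.trans ?_
  have h4 : (4 * L : ℝ) ^ m / (m.factorial : ℝ) ≤ (12 * L / m : ℝ) ^ m := by
    refine (Pool.Agent.X222.PR.pow_div_fact (4 * L) (by positivity) m hm).trans (le_of_eq ?_)
    congr 1
    ring
  refine mul_le_mul h4 ?_ (by positivity) (by positivity)
  rw [← Real.rpow_natCast]
  refine Real.rpow_le_rpow_of_exponent_le hn1 ?_
  push_cast
  linarith

theorem exp_sum (k : ℕ) : ∑ m ∈ Icc 1 k, Real.exp (-(m : ℝ)) ≤ 1 := by
  have h2 : Real.exp (-1) ≤ 1 / 2 := by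
    rw [Real.exp_neg, inv_le_comm₀ (Real.exp_pos 1) (by norm_num)]
    have := Real.add_one_le_exp (1 : ℝ)
    norm_num at this ⊢
    exact this
  have key : ∀ k : ℕ, ∑ m ∈ Icc 1 k, Real.exp (-(m : ℝ)) ≤ 1 - (1 / 2) ^ k := by
    intro k
    induction k with
    | zero => simp
    | succ k ih =>
      rw [sum_Icc_succ_top (by omega)]
      have h3 : Real.exp (-((k + 1 : ℕ) : ℝ)) ≤ (1 / 2) ^ (k + 1) := by
        have e : Real.exp (-((k + 1 : ℕ) : ℝ)) = Real.exp (-1) ^ (k + 1) := by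
          rw [← Real.exp_nat_mul]
          congr 1
          ring
        rw [e]
        exact pow_le_pow_left₀ (Real.exp_pos _).le h2 _
      have h4 : (1 / 2 : ℝ) ^ k = 2 * (1 / 2) ^ (k + 1) := by rw [pow_succ]; ring
      linarith
  have h5 : (0 : ℝ) ≤ (1 / 2) ^ k := by positivity
  linarith [key k]

open Classical in
/-- the union bound -/
theorem core (X : Finset Γ) (hX : X.Nonempty) (k : ℕ) (hk : k ≤ X.card) (Lf : ℕ → ℕ)
    (h : ∀ m : ℕ, 1 ≤ m → m ≤ Lf m →
      (12 * Lf m / m * (k / X.card) : ℝ) ^ m * (X.card : ℝ) ^ (2 * Real.sqrt (Lf m) + 2) ≤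
        Real.exp (-(m : ℝ)) / X.card) :
    ((((X.powersetCard k).filter fun S =>
      ∃ A : Finset Γ, A ⊆ S ∧ A.Nonempty ∧ (A + A).card ≤ Lf A.card).card : ℕ) : ℝ) ≤
      (X.card.choose k : ℝ) / X.card := by
  have hn0 : (0 : ℝ) < X.card := by exact_mod_cast hX.card_pos
  have hsub : ((X.powersetCard k).filter fun S =>
      ∃ A : Finset Γ, A ⊆ S ∧ A.Nonempty ∧ (A + A).card ≤ Lf A.card) ⊆
      ((Icc 1 k).filter fun m => m ≤ Lf m).biUnion fun m =>
        (small X (Lf m) m).biUnion fun A => (X.powersetCard k).filter fun S => A ⊆ S := by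
    intro S hS
    obtain ⟨hS1, A, hAS, hA, hc⟩ := mem_filter.1 hS
    obtain ⟨hSX, hSk⟩ := mem_powersetCard.1 hS1
    have hm : A.card ≤ Lf A.card := (card_le_card_add_left hA).trans hc
    rw [mem_biUnion]
    refine ⟨A.card, mem_filter.2 ⟨mem_Icc.2 ⟨hA.card_pos, ?_⟩, hm⟩, ?_⟩
    · rw [← hSk]
      exact card_le_card hAS
    · rw [mem_biUnion]
      exact ⟨A, mem_filter.2 ⟨mem_powersetCard.2 ⟨hAS.trans hSX, rfl⟩, hc⟩,
        mem_filter.2 ⟨hS1, hAS⟩⟩
  have hterm : ∀ m ∈ (Icc 1 k).filter (fun m => m ≤ Lf m),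
      (((((small X (Lf m) m).biUnion fun A =>
        (X.powersetCard k).filter fun S => A ⊆ S)).card : ℕ) : ℝ) ≤
        (X.card.choose k : ℝ) / X.card * Real.exp (-(m : ℝ)) := by
    intro m hm
    obtain ⟨hm1, hmL⟩ := mem_filter.1 hm
    obtain ⟨hm1, -⟩ := mem_Icc.1 hm1
    refine (Nat.cast_le.2 card_biUnion_le).trans ?_
    rw [Nat.cast_sum]
    have h1 : ∀ A ∈ small X (Lf m) m,
        ((((X.powersetCard k).filter fun S => A ⊆ S).card : ℕ) : ℝ) ≤
          (X.card.choose k : ℝ) * ((k : ℝ) / X.card) ^ m := by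
      intro A hA
      have hc := (mem_powersetCard.1 (mem_filter.1 hA).1).2
      have := supersets_real X A hX k hk
      rwa [hc] at this
    refine (sum_le_card_nsmul _ _ _ h1).trans ?_
    rw [nsmul_eq_mul]
    calc ((small X (Lf m) m).card : ℝ) * ((X.card.choose k : ℝ) * ((k : ℝ) / X.card) ^ m)
        ≤ ((12 * Lf m / m : ℝ) ^ m * (X.card : ℝ) ^ (2 * Real.sqrt (Lf m) + 2)) *
            ((X.card.choose k : ℝ) * ((k : ℝ) / X.card) ^ m) :=
          mul_le_mul_of_nonneg_right (small_real X hX (Lf m) m (hm1.trans hmL) hm1)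
            (by positivity)
      _ = (X.card.choose k : ℝ) * ((12 * Lf m / m * (k / X.card) : ℝ) ^ m *
            (X.card : ℝ) ^ (2 * Real.sqrt (Lf m) + 2)) := by rw [mul_pow]; ring
      _ ≤ (X.card.choose k : ℝ) * (Real.exp (-(m : ℝ)) / X.card) :=
          mul_le_mul_of_nonneg_left (h m hm1 hmL) (Nat.cast_nonneg _)
      _ = _ := by ring
  refine (Nat.cast_le.2 ((card_le_card hsub).trans card_biUnion_le)).trans ?_
  rw [Nat.cast_sum]
  refine (sum_le_sum hterm).trans ?_
  rw [← mul_sum]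
  have h2 : ∑ m ∈ (Icc 1 k).filter (fun m => m ≤ Lf m), Real.exp (-(m : ℝ)) ≤ 1 :=
    (sum_le_sum_of_subset_of_nonneg (filter_subset _ _) fun _ _ _ => (Real.exp_pos _).le).trans
      (exp_sum k)
  exact mul_le_of_le_one_right (by positivity) h2

end Pool.Agent.X222.RS
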