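import Pool.Agent.X222.RS.Core

/-! # Sumsets of the subsets of a random set -/

set_option autoImplicit false

namespace Pool.Agent.X222.RS

open Finset
open scoped Pointwise

variable {Γ : Type*} [AddCommGroup Γ] [DecidableEq Γ]

theorem const_bound : (0.012 : ℝ) ≤ Real.exp (-4) := by
  have h1 : Real.exp 4 ≤ 80 := by
    have e : Real.exp 4 = Real.exp 1 ^ 4 := by rw [← Real.exp_nat_mul]; norm_num
    rw [e]
    calc Real.exp 1 ^ 4 ≤ (2.7182818286 : ℝ) ^ 4 :=
          pow_le_pow_left₀ (Real.exp_pos 1).le Real.exp_one_lt_d9.le 4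
      _ ≤ 80 := by norm_num
  rw [Real.exp_neg, le_inv_comm₀ (by norm_num) (Real.exp_pos 4)]
  exact h1.trans (by norm_num)

open Classical in
/-- all densities -/
theorem dense (X : Finset Γ) (hX : 2 ≤ X.card) (k : ℕ) (hk : k ≤ X.card) :
    ((((X.powersetCard k).filter fun S =>
      ∃ A : Finset Γ, A ⊆ S ∧ A.Nonempty ∧ ((A + A).card : ℝ) ≤
        A.card / 1000 * min (A.card / Real.log X.card ^ 2) (X.card / k)).card : ℕ) : ℝ) ≤
      (X.card.choose k : ℝ) / X.card := by
  have hn2 : (2 : ℝ) ≤ X.card := by exact_mod_cast hX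
  have hn0 : (0 : ℝ) < X.card := by linarith
  have hXne : X.Nonempty := by rw [← card_pos]; omega
  set n : ℝ := (X.card : ℝ) with hn
  set l : ℝ := Real.log n with hl
  have hl1 : 0.69 ≤ l := by
    have h1 : Real.log 2 ≤ l := Real.log_le_log (by norm_num) hn2
    have h2 := Real.log_two_gt_d9
    linarith
  obtain ⟨Lf, hLf⟩ : ∃ Lf : ℕ → ℕ, Lf = fun m : ℕ =>
      ⌊(m : ℝ) / 1000 * min ((m : ℝ) / l ^ 2) (n / k)⌋₊ := ⟨_, rfl⟩
  have h := core X hXne k hk Lf (by
    intro m hm hmL
    rw [← hn]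
    have hm0 : (1 : ℝ) ≤ m := by exact_mod_cast hm
    have hL1 : (1 : ℝ) ≤ Lf m := by exact_mod_cast hm.trans hmL
    have hmL' : (m : ℝ) ≤ Lf m := by exact_mod_cast hmL
    have hL : (Lf m : ℝ) ≤ (m : ℝ) / 1000 * min ((m : ℝ) / l ^ 2) (n / k) := by
      rw [hLf]
      exact Nat.floor_le (by positivity)
    set L : ℝ := (Lf m : ℝ) with hLdef
    have hLa : L ≤ (m : ℝ) / 1000 * ((m : ℝ) / l ^ 2) :=
      hL.trans (mul_le_mul_of_nonneg_left (min_le_left _ _) (by positivity))
    have hLb : L ≤ (m : ℝ) / 1000 * (n / k) :=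
      hL.trans (mul_le_mul_of_nonneg_left (min_le_right _ _) (by positivity))
    have hk0 : (0 : ℝ) < k := by
      rcases Nat.eq_zero_or_pos k with h0 | h0
      · exfalso
        rw [h0] at hLb
        simp only [Nat.cast_zero, div_zero, mul_zero] at hLb
        linarith
      · exact_mod_cast h0
    have h1 : 12 * L / m * (k / n) ≤ Real.exp (-4) := by
      refine le_trans ?_ const_bound
      calc 12 * L / m * (k / n) ≤ 12 * ((m : ℝ) / 1000 * (n / k)) / m * (k / n) := by gcongr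
        _ = 0.012 := by field_simp; norm_num
    have hml : 1000 * l ^ 2 ≤ m := by
      have h2 : (m : ℝ) ≤ (m : ℝ) / 1000 * ((m : ℝ) / l ^ 2) := hmL'.trans hLa
      have h3 : (m : ℝ) / 1000 * ((m : ℝ) / l ^ 2) = m * (m / (1000 * l ^ 2)) := by
        field_simp
      rw [h3] at h2
      have h4 : (1 : ℝ) ≤ m / (1000 * l ^ 2) := by
        by_contra hcon
        push Not at hcon
        nlinarith
      rwa [one_le_div (by positivity)] at h4
    have hs : Real.sqrt L * l ≤ m / 31 := by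
      have h2 : Real.sqrt L ≤ m / (31 * l) := by
        rw [Real.sqrt_le_left (by positivity)]
        refine hLa.trans ?_
        rw [div_pow, div_mul_div_comm, div_le_div_iff₀ (by positivity) (by positivity)]
        have h3 : 0 ≤ (m : ℝ) ^ 2 * l ^ 2 := by positivity
        nlinarith
      calc Real.sqrt L * l ≤ m / (31 * l) * l := mul_le_mul_of_nonneg_right h2 (by linarith)
        _ = m / 31 := by field_simp
    have h2 : n ^ (2 * Real.sqrt L + 2) = Real.exp (2 * (Real.sqrt L * l) + 2 * l) := by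
      rw [Real.rpow_def_of_pos hn0]
      congr 1
      rw [← hl]
      ring
    have hl3 : 3 * l ≤ m := by nlinarith
    calc (12 * L / m * (k / n)) ^ m * n ^ (2 * Real.sqrt L + 2)
        ≤ Real.exp (-4) ^ m * Real.exp (2 * (Real.sqrt L * l) + 2 * l) := by
          rw [h2]
          exact mul_le_mul_of_nonneg_right (pow_le_pow_left₀ (by positivity) h1 m)
            (Real.exp_pos _).le
      _ = Real.exp (m * (-4) + (2 * (Real.sqrt L * l) + 2 * l)) := by
          rw [← Real.exp_nat_mul, ← Real.exp_add]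
      _ ≤ Real.exp (-(m : ℝ) - l) := by
          rw [Real.exp_le_exp]
          linarith
      _ = Real.exp (-(m : ℝ)) / n := by rw [Real.exp_sub, hl, Real.exp_log hn0])
  refine le_trans ?_ h
  refine Nat.cast_le.2 (card_le_card ?_)
  intro S hS
  obtain ⟨hS1, A, hAS, hA, hc⟩ := mem_filter.1 hS
  refine mem_filter.2 ⟨hS1, A, hAS, hA, ?_⟩
  rw [hLf]
  exact Nat.le_floor hc

open Classical in
/-- sparse random sets -/
theorem sparse (ε : ℝ) (hε : 0 < ε) (hε1 : ε ≤ 1) (X : Finset Γ) (hX : 2 ≤ X.card) (k : ℕ)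
    (hk : (k : ℝ) ≤ (X.card : ℝ) ^ (1 - ε)) :
    ((((X.powersetCard k).filter fun S =>
      ∃ A : Finset Γ, A ⊆ S ∧ A.Nonempty ∧ ((A + A).card : ℝ) ≤
        ε ^ 2 / 1000 * A.card * min (A.card : ℝ) ((X.card : ℝ) ^ (ε / 4))).card : ℕ) : ℝ) ≤
      (X.card.choose k : ℝ) / X.card := by
  have hn2 : (2 : ℝ) ≤ X.card := by exact_mod_cast hX
  have hn0 : (0 : ℝ) < X.card := by linarith
  have hXne : X.Nonempty := by rw [← card_pos]; omega
  have hkX : k ≤ X.card := by
    have h1 : (k : ℝ) ≤ X.card := by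
      refine hk.trans ?_
      calc (X.card : ℝ) ^ (1 - ε) ≤ (X.card : ℝ) ^ (1 : ℝ) :=
            Real.rpow_le_rpow_of_exponent_le (by linarith) (by linarith)
        _ = X.card := Real.rpow_one _
    exact_mod_cast h1
  set n : ℝ := (X.card : ℝ) with hn
  set l : ℝ := Real.log n with hl
  have hl1 : 0.69 ≤ l := by
    have h1 : Real.log 2 ≤ l := Real.log_le_log (by norm_num) hn2
    have h2 := Real.log_two_gt_d9
    linarith
  obtain ⟨Lf, hLf⟩ : ∃ Lf : ℕ → ℕ, Lf = fun m : ℕ =>
      ⌊ε ^ 2 / 1000 * (m : ℝ) * min (m : ℝ) (n ^ (ε / 4))⌋₊ := ⟨_, rfl⟩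
  have h := core X hXne k hkX Lf (by
    intro m hm hmL
    rw [← hn]
    have hm0 : (1 : ℝ) ≤ m := by exact_mod_cast hm
    have hmL' : (m : ℝ) ≤ Lf m := by exact_mod_cast hmL
    have hL : (Lf m : ℝ) ≤ ε ^ 2 / 1000 * (m : ℝ) * min (m : ℝ) (n ^ (ε / 4)) := by
      rw [hLf]
      exact Nat.floor_le (by positivity)
    set L : ℝ := (Lf m : ℝ) with hLdef
    have hLa : L ≤ ε ^ 2 / 1000 * (m : ℝ) * m :=
      hL.trans (mul_le_mul_of_nonneg_left (min_le_left _ _) (by positivity))
    have hLb : L ≤ ε ^ 2 / 1000 * (m : ℝ) * n ^ (ε / 4) :=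
      hL.trans (mul_le_mul_of_nonneg_left (min_le_right _ _) (by positivity))
    have h1 : 12 * L / m * (k / n) ≤ Real.exp (-4) * Real.exp (-(3 / 4 * (ε * l))) := by
      have h2 : (k : ℝ) / n ≤ n ^ (-ε) := by
        rw [div_le_iff₀ hn0]
        refine hk.trans (le_of_eq ?_)
        rw [← Real.rpow_add_one hn0.ne']
        congr 1
        ring
      calc 12 * L / m * (k / n)
          ≤ 12 * (ε ^ 2 / 1000 * (m : ℝ) * n ^ (ε / 4)) / m * n ^ (-ε) := by gcongr
        _ = (12 * ε ^ 2 / 1000) * (n ^ (ε / 4) * n ^ (-ε)) := by field_simp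
        _ = (12 * ε ^ 2 / 1000) * Real.exp (-(3 / 4 * (ε * l))) := by
            rw [← Real.rpow_add hn0, Real.rpow_def_of_pos hn0, ← hl]
            congr 2
            ring
        _ ≤ Real.exp (-4) * Real.exp (-(3 / 4 * (ε * l))) := by
            refine mul_le_mul_of_nonneg_right (le_trans ?_ const_bound) (Real.exp_pos _).le
            nlinarith
    have hml : 1000 ≤ ε ^ 2 * m := by
      have h2 : (m : ℝ) ≤ ε ^ 2 / 1000 * (m : ℝ) * m := hmL'.trans hLa
      by_contra hcon
      push Not at hcon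
      nlinarith
    have hεm : 1000 ≤ ε * m := by nlinarith
    have hs : Real.sqrt L ≤ ε * m / 31 := by
      rw [Real.sqrt_le_left (by positivity)]
      refine hLa.trans ?_
      have h3 : 0 ≤ ε ^ 2 * (m : ℝ) ^ 2 := by positivity
      nlinarith
    have h2 : n ^ (2 * Real.sqrt L + 2) = Real.exp ((2 * Real.sqrt L + 2) * l) := by
      rw [Real.rpow_def_of_pos hn0, ← hl]
      congr 1
      ring
    have hsl : Real.sqrt L * l ≤ ε * m / 31 * l := mul_le_mul_of_nonneg_right hs (by linarith)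
    have hel : 1000 * l ≤ ε * m * l := mul_le_mul_of_nonneg_right hεm (by linarith)
    calc (12 * L / m * (k / n)) ^ m * n ^ (2 * Real.sqrt L + 2)
        ≤ (Real.exp (-4) * Real.exp (-(3 / 4 * (ε * l)))) ^ m *
            Real.exp ((2 * Real.sqrt L + 2) * l) := by
          rw [h2]
          exact mul_le_mul_of_nonneg_right (pow_le_pow_left₀ (by positivity) h1 m)
            (Real.exp_pos _).le
      _ = Real.exp (m * (-4 + -(3 / 4 * (ε * l))) + (2 * Real.sqrt L + 2) * l) := by
          rw [← Real.exp_add, ← Real.exp_nat_mul, ← Real.exp_add]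
      _ ≤ Real.exp (-(m : ℝ) - l) := by
          rw [Real.exp_le_exp]
          nlinarith
      _ = Real.exp (-(m : ℝ)) / n := by rw [Real.exp_sub, hl, Real.exp_log hn0])
  refine le_trans ?_ h
  refine Nat.cast_le.2 (card_le_card ?_)
  intro S hS
  obtain ⟨hS1, A, hAS, hA, hc⟩ := mem_filter.1 hS
  refine mem_filter.2 ⟨hS1, A, hAS, hA, ?_⟩
  rw [hLf]
  exact Nat.le_floor hc

end Pool.Agent.X222.RS
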