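import Pool.Agent.X222.PR.Count

/-! # Counting the sets of small doubling inside a finite set -/

set_option autoImplicit false

namespace Pool.Agent.X222.RS

open Finset
open scoped Pointwise

variable {Γ : Type*} [AddCommGroup Γ] [DecidableEq Γ]

/-- the elements `x` with few new sums `x + y`, `y ∈ F` -/
def Cheap (F : Finset Γ) (x : Γ) : Prop := 2 * ((F.image fun y => x + y) \ (F + F)).card ≤ F.card

open Classical in
theorem cheap_card (F X : Finset Γ) (hF : F.Nonempty) :
    (X.filter fun x => Cheap F x).card ≤ 2 * (F + F).card := by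
  have hF0 : 0 < F.card := hF.card_pos
  -- count pairs
  have h1 : ∀ x ∈ X.filter (fun x => Cheap F x), F.card ≤
      2 * ((F + F).filter fun z => z - x ∈ F).card := by
    intro x hx
    have hx := (mem_filter.1 hx).2
    unfold Cheap at hx
    have e1 : (F.image fun y => x + y).card = F.card :=
      card_image_of_injective _ (add_right_injective x)
    have e2 : ((F.image fun y => x + y) \ (F + F)).card +
        ((F.image fun y => x + y) ∩ (F + F)).card = F.card := by
      rw [card_sdiff_add_card_inter, e1]
    have e3 : ((F.image fun y => x + y) ∩ (F + F)).card ≤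
        ((F + F).filter fun z => z - x ∈ F).card := by
      refine card_le_card fun z hz => ?_
      obtain ⟨h1, h2⟩ := mem_inter.1 hz
      obtain ⟨y, hy, rfl⟩ := mem_image.1 h1
      exact mem_filter.2 ⟨h2, by simpa using hy⟩
    omega
  have h2 : (X.filter fun x => Cheap F x).card * F.card ≤
      ∑ x ∈ X.filter (fun x => Cheap F x), 2 * ((F + F).filter fun z => z - x ∈ F).card := by
    rw [← smul_eq_mul]
    exact card_nsmul_le_sum _ _ _ h1
  have h3 : ∑ x ∈ X.filter (fun x => Cheap F x), 2 * ((F + F).filter fun z => z - x ∈ F).card ≤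
      2 * ((F + F).card * F.card) := by
    rw [← mul_sum]
    refine Nat.mul_le_mul_left 2 ?_
    simp only [card_filter]
    rw [sum_comm, ← smul_eq_mul, ← sum_const]
    refine sum_le_sum fun z _ => ?_
    rw [← card_filter]
    refine card_le_card_of_injOn (fun x => z - x) ?_ ?_
    · intro x hx
      exact (mem_filter.1 (mem_coe.1 hx)).2
    · intro x _ y _ h
      exact sub_right_injective h
  have h4 : (X.filter fun x => Cheap F x).card * F.card ≤ (2 * (F + F).card) * F.card := by
    calc _ ≤ 2 * ((F + F).card * F.card) := h2.trans h3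
      _ = _ := by ring
  exact Nat.le_of_mul_le_mul_right h4 hF0

open Classical in
/-- the number of expensive steps -/
noncomputable def bad : (m : ℕ) → (Fin m → Γ) → ℕ
  | 0, _ => 0
  | m + 1, f => bad m (Fin.tail f) + if Cheap (univ.image (Fin.tail f)) (f 0) then 0 else 1

theorem image_cons {m : ℕ} (f : Fin (m + 1) → Γ) :
    univ.image f = insert (f 0) (univ.image (Fin.tail f)) := by
  ext x
  simp only [mem_image, mem_univ, true_and, mem_insert]
  constructor
  · rintro ⟨i, rfl⟩
    refine Fin.cases (Or.inl rfl) (fun j => Or.inr ⟨j, rfl⟩) i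
  · rintro (rfl | ⟨j, rfl⟩)
    · exact ⟨0, rfl⟩
    · exact ⟨j.succ, rfl⟩

open Classical in
/-- the tuples with few sums and at most `b` expensive steps -/
noncomputable def tup (X : Finset Γ) (L b m : ℕ) : Finset (Fin m → Γ) :=
  (Fintype.piFinset fun _ => X).filter fun f =>
    ((univ.image f) + (univ.image f)).card ≤ L ∧ bad m f ≤ b

theorem tail_mem {X : Finset Γ} {L b m : ℕ} {f : Fin (m + 1) → Γ} (hf : f ∈ tup X L b (m + 1)) :
    Fin.tail f ∈ tup X L b m ∧ f 0 ∈ X := by
  classical
  obtain ⟨h1, h2, h3⟩ := mem_filter.1 hf
  rw [Fintype.mem_piFinset] at h1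
  refine ⟨mem_filter.2 ⟨?_, ?_, ?_⟩, h1 0⟩
  · rw [Fintype.mem_piFinset]
    exact fun i => h1 i.succ
  · refine le_trans (card_le_card ?_) h2
    rw [image_cons f]
    exact add_subset_add (subset_insert _ _) (subset_insert _ _)
  · unfold bad at h3
    omega

open Classical in
theorem fiber_card {m : ℕ} (U : Finset (Fin (m + 1) → Γ)) (V : Finset (Fin m → Γ)) (c : ℕ)
    (Y : (Fin m → Γ) → Finset Γ) (h1 : ∀ f ∈ U, Fin.tail f ∈ V ∧ f 0 ∈ Y (Fin.tail f))
    (h2 : ∀ g ∈ V, (Y g).card ≤ c) : U.card ≤ c * V.card := by
  refine card_le_mul_card_image_of_maps_to (f := Fin.tail) (fun f hf => (h1 f hf).1) c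
    fun g hg => ?_
  refine le_trans (card_le_card_of_injOn (fun f => f 0) (t := Y g) ?_ ?_) (h2 g hg)
  · intro f hf
    obtain ⟨hf, e⟩ := mem_filter.1 (mem_coe.1 hf)
    have := (h1 f hf).2
    rw [e] at this
    exact this
  · intro f hf f' hf' h
    obtain ⟨-, e⟩ := mem_filter.1 (mem_coe.1 hf)
    obtain ⟨-, e'⟩ := mem_filter.1 (mem_coe.1 hf')
    rw [← Fin.cons_self_tail f, ← Fin.cons_self_tail f', e, e']
    simp only at h
    rw [h]

open Classical in
theorem tup_card (X : Finset Γ) (hX : X.Nonempty) (L : ℕ) (hL : 1 ≤ L) :
    ∀ (m b : ℕ), (tup X L b m).card ≤ 2 ^ m * X.card ^ (b + 1) * (2 * L) ^ m := by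
  have hX1 : 1 ≤ X.card := hX.card_pos
  intro m
  induction m with
  | zero =>
    intro b
    have h1 : (tup X L b 0).card ≤ 1 := by
      refine (card_filter_le _ _).trans (le_of_eq ?_)
      rw [Fintype.card_piFinset]
      simp
    have h2 : 1 ≤ X.card ^ (b + 1) := Nat.one_le_pow _ _ hX1
    simpa using h1.trans h2
  | succ m ih =>
    intro b
    rcases Nat.eq_zero_or_pos m with hm | hm
    · subst hm
      have h1 : (tup X L b 1).card ≤ X.card := by
        refine (card_filter_le _ _).trans (le_of_eq ?_)
        rw [Fintype.card_piFinset]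
        simp
      calc (tup X L b 1).card ≤ X.card := h1
        _ = X.card ^ 1 := (pow_one _).symm
        _ ≤ X.card ^ (b + 1) := Nat.pow_le_pow_right hX1 (by omega)
        _ = 1 * X.card ^ (b + 1) * 1 := by ring
        _ ≤ 2 ^ (0 + 1) * X.card ^ (b + 1) * (2 * L) ^ (0 + 1) := by
            refine Nat.mul_le_mul (Nat.mul_le_mul_right _ (by norm_num)) ?_
            rw [zero_add, pow_one]
            omega
    · have hA : ((tup X L b (m + 1)).filter fun f =>
          Cheap (univ.image (Fin.tail f)) (f 0)).card ≤ (2 * L) * (tup X L b m).card := by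
        refine fiber_card _ _ _ (fun g => X.filter fun x => Cheap (univ.image g) x) ?_ ?_
        · intro f hf
          obtain ⟨hf1, hf2⟩ := mem_filter.1 hf
          obtain ⟨h1, h2⟩ := tail_mem hf1
          exact ⟨h1, mem_filter.2 ⟨h2, hf2⟩⟩
        · intro g hg
          have h1 := (mem_filter.1 hg).2.1
          have hne : (univ.image g).Nonempty := ⟨g ⟨0, hm⟩, mem_image_of_mem _ (mem_univ _)⟩
          exact (cheap_card (univ.image g) X hne).trans (Nat.mul_le_mul_left 2 h1)
      have hB : ((tup X L b (m + 1)).filter fun f =>
          ¬ Cheap (univ.image (Fin.tail f)) (f 0)).card ≤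
            2 ^ m * X.card ^ (b + 1) * (2 * L) ^ m := by
        rcases Nat.eq_zero_or_pos b with hb | hb
        · have e : ((tup X L b (m + 1)).filter fun f =>
              ¬ Cheap (univ.image (Fin.tail f)) (f 0)) = ∅ := by
            refine filter_false_of_mem fun f hf => ?_
            have h3 := (mem_filter.1 hf).2.2
            intro h4
            unfold bad at h3
            rw [if_neg h4] at h3
            omega
          rw [e]
          simp
        · have h1 : ((tup X L b (m + 1)).filter fun f =>
              ¬ Cheap (univ.image (Fin.tail f)) (f 0)).card ≤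
                X.card * (tup X L (b - 1) m).card := by
            refine fiber_card _ _ _ (fun _ => X) ?_ fun _ _ => le_rfl
            intro f hf
            obtain ⟨hf1, hf2⟩ := mem_filter.1 hf
            obtain ⟨h1, h2⟩ := tail_mem hf1
            obtain ⟨h3, h4, h5⟩ := mem_filter.1 h1
            refine ⟨mem_filter.2 ⟨h3, h4, ?_⟩, h2⟩
            have h6 := (mem_filter.1 hf1).2.2
            unfold bad at h6
            rw [if_neg hf2] at h6
            omega
          refine h1.trans ((Nat.mul_le_mul_left _ (ih (b - 1))).trans (le_of_eq ?_))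
          have e : b - 1 + 1 = b := by omega
          rw [e, pow_succ]
          ring
      have hsum := card_filter_add_card_filter_not (s := tup X L b (m + 1))
        (fun f => Cheap (univ.image (Fin.tail f)) (f 0))
      have hih := ih b
      calc (tup X L b (m + 1)).card ≤ (2 * L) * (tup X L b m).card +
            2 ^ m * X.card ^ (b + 1) * (2 * L) ^ m := by omega
        _ ≤ (2 * L) * (2 ^ m * X.card ^ (b + 1) * (2 * L) ^ m) +
            (2 * L) * (2 ^ m * X.card ^ (b + 1) * (2 * L) ^ m) := by
            refine Nat.add_le_add (Nat.mul_le_mul_left _ hih) ?_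
            exact Nat.le_mul_of_pos_left _ (by omega)
        _ = 2 ^ (m + 1) * X.card ^ (b + 1) * (2 * L) ^ (m + 1) := by
            rw [pow_succ, pow_succ]
            ring

theorem tail_inj {m : ℕ} {f : Fin (m + 1) → Γ} (hf : Function.Injective f) :
    Function.Injective (Fin.tail f) := fun _ _ h => Fin.succ_injective _ (hf h)

/-- few expensive steps -/
theorem bad_le : ∀ (m : ℕ) (f : Fin m → Γ), Function.Injective f →
    bad m f ≤ m ∧ bad m f * (bad m f - 1) ≤ 4 * ((univ.image f) + (univ.image f)).card := by
  intro m
  induction m with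
  | zero => intro f _; simp [bad]
  | succ m ih =>
    intro f hf
    obtain ⟨h1, h2⟩ := ih (Fin.tail f) (tail_inj hf)
    have hc : (univ.image (Fin.tail f)).card = m := by
      rw [card_image_of_injective _ (tail_inj hf), card_univ, Fintype.card_fin]
    have hsub : (univ.image (Fin.tail f)) + (univ.image (Fin.tail f)) ⊆
        (univ.image f) + (univ.image f) := by
      rw [image_cons f]
      exact add_subset_add (subset_insert _ _) (subset_insert _ _)
    unfold bad
    by_cases hch : Cheap (univ.image (Fin.tail f)) (f 0)
    · rw [if_pos hch, add_zero]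
      exact ⟨by omega, h2.trans (Nat.mul_le_mul_left 4 (card_le_card hsub))⟩
    · rw [if_neg hch]
      refine ⟨by omega, ?_⟩
      unfold Cheap at hch
      rw [hc] at hch
      set F := univ.image (Fin.tail f) with hF
      have h3 : ((F.image fun y => f 0 + y) \ (F + F)).card + (F + F).card ≤
          ((univ.image f) + (univ.image f)).card := by
        rw [← card_union_of_disjoint sdiff_disjoint]
        refine card_le_card (union_subset ?_ hsub)
        intro z hz
        obtain ⟨y, hy, rfl⟩ := mem_image.1 (mem_sdiff.1 hz).1
        rw [image_cons f]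
        exact add_mem_add (mem_insert_self _ _) (mem_insert_of_mem hy)
      have e : bad m (Fin.tail f) + 1 - 1 = bad m (Fin.tail f) := by omega
      rw [e]
      have h4 : (bad m (Fin.tail f) + 1) * bad m (Fin.tail f) =
          bad m (Fin.tail f) * (bad m (Fin.tail f) - 1) + 2 * bad m (Fin.tail f) := by
        rcases Nat.eq_zero_or_pos (bad m (Fin.tail f)) with h0 | h0
        · rw [h0]
        · obtain ⟨c, hc⟩ : ∃ c, bad m (Fin.tail f) = c + 1 := ⟨_, (Nat.succ_pred_eq_of_pos h0).symm⟩
          rw [hc, Nat.add_sub_cancel]
          ring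
      rw [h4]
      omega

open Classical in
/-- the sets of size `m` with few sums -/
noncomputable def small (X : Finset Γ) (L m : ℕ) : Finset (Finset Γ) :=
  (X.powersetCard m).filter fun A => (A + A).card ≤ L

open Classical in
theorem small_card (X : Finset Γ) (hX : X.Nonempty) (L m b : ℕ) (hL : 1 ≤ L)
    (hb : 4 * L < (b + 1) * b) :
    m.factorial * (small X L m).card ≤ 2 ^ m * X.card ^ (b + 1) * (2 * L) ^ m := by
  refine le_trans ?_ (tup_card X hX L hL m b)
  -- every set comes from many tuples
  have hfib : ∀ A ∈ small X L m, m.factorial ≤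
      ((tup X L b m).filter fun f => univ.image f = A).card := by
    intro A hA
    obtain ⟨h1, h2⟩ := mem_filter.1 hA
    obtain ⟨hAX, hAc⟩ := mem_powersetCard.1 h1
    let e : Fin m ≃ A := (Fintype.equivFinOfCardEq (by rw [Fintype.card_coe, hAc])).symm
    have hperm : (univ : Finset (Equiv.Perm (Fin m))).card = m.factorial := by
      rw [card_univ, Fintype.card_perm, Fintype.card_fin]
    rw [← hperm]
    refine card_le_card_of_injOn (fun σ => fun i => (e (σ i) : Γ)) ?_ ?_
    · intro σ _
      have himg : univ.image (fun i => (e (σ i) : Γ)) = A := by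
        ext x
        simp only [mem_image, mem_univ, true_and]
        constructor
        · rintro ⟨i, rfl⟩
          exact (e (σ i)).2
        · intro hx
          exact ⟨σ.symm (e.symm ⟨x, hx⟩), by simp⟩
      have hinj : Function.Injective (fun i => (e (σ i) : Γ)) := by
        intro i j h
        exact σ.injective (e.injective (Subtype.ext h))
      rw [mem_coe]
      refine mem_filter.2 ⟨mem_filter.2 ⟨?_, ?_, ?_⟩, himg⟩
      · rw [Fintype.mem_piFinset]
        exact fun i => hAX (e (σ i)).2
      · rw [himg]
        exact h2
      · obtain ⟨-, h3⟩ := bad_le m _ hinj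
        rw [himg] at h3
        by_contra hcon
        push Not at hcon
        have h4 : (b + 1) * b ≤ bad m (fun i => (e (σ i) : Γ)) *
            (bad m (fun i => (e (σ i) : Γ)) - 1) := Nat.mul_le_mul (by omega) (by omega)
        omega
    · intro σ _ τ _ h
      ext i
      have h1 := congrFun h i
      simp only at h1
      have h2 := e.injective (Subtype.ext h1)
      rw [h2]
  calc m.factorial * (small X L m).card = ∑ _A ∈ small X L m, m.factorial := by
        rw [sum_const, smul_eq_mul, mul_comm]
    _ ≤ ∑ A ∈ small X L m, ((tup X L b m).filter fun f => univ.image f = A).card :=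
        sum_le_sum hfib
    _ = ((small X L m).biUnion fun A => (tup X L b m).filter fun f => univ.image f = A).card := by
        rw [card_biUnion]
        intro A _ B _ hAB
        rw [Function.onFun, disjoint_left]
        intro f hf hf'
        exact hAB ((mem_filter.1 hf).2.symm.trans (mem_filter.1 hf').2)
    _ ≤ (tup X L b m).card := by
        refine card_le_card fun f hf => ?_
        obtain ⟨A, -, hf⟩ := mem_biUnion.1 hf
        exact (mem_filter.1 hf).1

end Pool.Agent.X222.RS
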